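import Pool.Agent.H64.BA.Gam

/-!
Torsion-free barely transitive groups which are not finitely generated: no nontrivial abelian
subgroup is normalized by a subgroup of finite index of a point stabilizer.
-/

set_option autoImplicit false

open scoped commutatorElement

namespace H64.BA

open H47.BT MulAction

/-- The subgroup generated by the conjugates of `c` under `F`. -/
def D {G : Type*} [Group G] (c : G) (F : Subgroup G) : Subgroup G :=
  Subgroup.closure {y | ∃ f ∈ F, y = f * c * f⁻¹}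

theorem D_mono {G : Type*} [Group G] (c : G) {F F' : Subgroup G} (h : F ≤ F') : D c F ≤ D c F' := by
  refine Subgroup.closure_mono ?_
  rintro y ⟨f, hf, rfl⟩
  exact ⟨f, h hf, rfl⟩

theorem D_conj {G : Type*} [Group G] {c : G} {F : Subgroup G} {n : G} (hn : n ∈ D c F) {k : G}
    (hk : k ∈ F) : k * n * k⁻¹ ∈ D c F := by
  induction hn using Subgroup.closure_induction with
  | mem y hy =>
    obtain ⟨f, hf, rfl⟩ := hy
    refine Subgroup.subset_closure ⟨k * f, mul_mem hk hf, ?_⟩
    group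
  | one =>
    have : k * 1 * k⁻¹ = 1 := by group
    rw [this]
    exact one_mem _
  | mul a b _ _ ha hb =>
    have : k * (a * b) * k⁻¹ = (k * a * k⁻¹) * (k * b * k⁻¹) := by group
    rw [this]
    exact mul_mem ha hb
  | inv a _ ha =>
    have : k * a⁻¹ * k⁻¹ = (k * a * k⁻¹)⁻¹ := by group
    rw [this]
    exact inv_mem ha

/-- In a simple group every element is a product of conjugates of `c` under a finitely generated
subgroup. -/
theorem exists_fg {G : Type*} [Group G] (hs : ∀ N : Subgroup G, N.Normal → N = ⊥ ∨ N = ⊤) {c : G}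
    (hc : c ≠ 1) (g : G) : ∃ F : Subgroup G, F.FG ∧ g ∈ D c F := by
  let R : Subgroup G :=
    { carrier := {z | ∃ F : Subgroup G, F.FG ∧ z ∈ D c F}
      one_mem' := ⟨⊥, ⟨∅, by simp⟩, one_mem _⟩
      mul_mem' := by
        rintro a b ⟨F, hF, ha⟩ ⟨F', hF', hb⟩
        exact ⟨F ⊔ F', hF.sup hF', mul_mem (D_mono c le_sup_left ha) (D_mono c le_sup_right hb)⟩
      inv_mem' := by
        rintro a ⟨F, hF, ha⟩
        exact ⟨F, hF, inv_mem ha⟩ }
  have hRn : R.Normal := by
    refine ⟨fun n hn k => ?_⟩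
    obtain ⟨F, hF, hn⟩ := hn
    refine ⟨F ⊔ Subgroup.zpowers k, hF.sup ⟨{k}, by simp [Subgroup.zpowers_eq_closure]⟩, ?_⟩
    exact D_conj (D_mono c le_sup_left hn)
      ((le_sup_right : Subgroup.zpowers k ≤ F ⊔ Subgroup.zpowers k) (Subgroup.mem_zpowers k))
  have hcR : c ∈ R := by
    refine ⟨⊥, ⟨∅, by simp⟩, Subgroup.subset_closure ⟨1, one_mem _, ?_⟩⟩
    group
  rcases hs R hRn with h | h
  · rw [h] at hcR
    exact absurd (Subgroup.mem_bot.1 hcR) hc
  · have : g ∈ R := by rw [h]; trivial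
    exact this

variable {G Ω : Type*} [Group G] [MulAction G Ω]

/-- Every proper subgroup is contained in a proper subgroup which contains a subgroup of finite
index of the point stabilizer. -/
theorem exists_open (h : Bare G Ω) (x : Ω) {F : Subgroup G} (hF : F ≠ ⊤) :
    ∃ K : Subgroup G, K ≠ ⊤ ∧ F ≤ K ∧ K.relIndex (stabilizer G x) ≠ 0 := by
  have hfin : Finite (orbit F x) := h.bare F hF x
  let L : Subgroup G := ⨅ y : orbit F x, stabilizer G (y : Ω)
  have hL : L.relIndex (stabilizer G x) ≠ 0 :=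
    Subgroup.relIndex_iInf_ne_zero fun y => h.rel (h.stab x) y
  have hmem : ∀ l : G, l ∈ L ↔ ∀ y ∈ orbit F x, l • y = y := by
    intro l
    rw [Subgroup.mem_iInf]
    exact ⟨fun h y hy => h ⟨y, hy⟩, fun h y => h y.1 y.2⟩
  have hFL : ∀ f ∈ F, ∀ l ∈ L, f * l * f⁻¹ ∈ L := by
    intro f hf l hl
    rw [hmem] at hl ⊢
    intro y hy
    have h1 : f⁻¹ • y ∈ orbit F x := by
      obtain ⟨u, rfl⟩ := hy
      refine ⟨(⟨f⁻¹, inv_mem hf⟩ : F) * u, ?_⟩
      exact mul_smul (⟨f⁻¹, inv_mem hf⟩ : F) u x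
    rw [mul_smul, mul_smul, hl _ h1, smul_inv_smul]
  refine ⟨F ⊔ L, ?_, le_sup_left, ?_⟩
  · intro hc
    have hn : L.Normal := by
      rw [← Subgroup.normalizer_eq_top_iff, eq_top_iff, ← hc]
      refine sup_le ?_ Subgroup.le_normalizer
      intro f hf
      rw [Subgroup.mem_normalizer_iff]
      intro l
      refine ⟨fun hl => hFL f hf l hl, fun hl => ?_⟩
      have h1 := hFL f⁻¹ (inv_mem hf) _ hl
      have e : f⁻¹ * (f * l * f⁻¹) * f⁻¹⁻¹ = l := by group
      rwa [e] at h1
    rcases h.simple L hn with h1 | h1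
    · obtain ⟨g, hg⟩ := h.exists_ne
      have h2 := h.open_cz x hL
      rw [h1] at h2
      have h3 : g ∈ Cz (⊥ : Subgroup G) := by
        rw [mem_Cz]
        intro y hy
        rw [Subgroup.mem_bot.1 hy, one_mul, mul_one]
      rw [h2] at h3
      exact hg (Subgroup.mem_bot.1 h3)
    · refine h.stab x (eq_top_iff.2 fun g _ => ?_)
      have : g ∈ L := by rw [h1]; trivial
      exact (hmem g).1 this x (mem_orbit_self x)
  · exact fun hc => hL (Subgroup.relIndex_eq_zero_of_le_left le_sup_right hc)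

/-- **The theorem for groups which are not finitely generated.** -/
theorem abel (h : Bare G Ω) (hfg : ¬ Group.FG G) (x : Ω) {A : Subgroup G} (hAb : A ≠ ⊥)
    (hA : ∀ a ∈ A, ∀ b ∈ A, a * b = b * a) {Y : Subgroup G}
    (hY : Y.relIndex (stabilizer G x) ≠ 0) (hYA : Nrm Y A) : False := by
  classical
  obtain ⟨a, haA, ha1⟩ := exists_ne_one hAb
  obtain ⟨g, hg⟩ : ∃ g : G, ⁅g, a⁆ ≠ 1 := by
    by_contra hc
    push Not at hc
    apply ha1
    have h1 : a ∈ Subgroup.center G := by
      rw [Subgroup.mem_center_iff]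
      intro g
      exact commutatorElement_eq_one_iff_mul_comm.1 (hc g)
    rw [h.ctr] at h1
    exact Subgroup.mem_bot.1 h1
  obtain ⟨F, hF, hgF⟩ := exists_fg h.simple hg g
  have hF' : (F ⊔ Subgroup.closure {a, g}).FG := hF.sup ⟨{a, g}, by simp⟩
  have hFt : F ⊔ Subgroup.closure {a, g} ≠ ⊤ := by
    intro hc
    rw [hc] at hF'
    exact hfg (Group.fg_def.2 hF')
  obtain ⟨K, hK, hFK, hKo⟩ := exists_open h x hFt
  have haK : a ∈ K := hFK ((le_sup_right : Subgroup.closure {a, g} ≤ F ⊔ Subgroup.closure {a, g})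
    (Subgroup.subset_closure (Or.inl rfl)))
  have hgK : g ∈ K := hFK ((le_sup_right : Subgroup.closure {a, g} ≤ F ⊔ Subgroup.closure {a, g})
    (Subgroup.subset_closure (Or.inr rfl)))
  have hFK' : F ≤ K := le_sup_left.trans hFK
  have hgD := D_mono ⁅g, a⁆ hFK' hgF
  -- inside `K`
  let a' : K := ⟨a, haK⟩
  let g' : K := ⟨g, hgK⟩
  have hYK : (Y.subgroupOf K).FiniteIndex :=
    ⟨Subgroup.relIndex_ne_zero_trans hY (h.rel hK x)⟩
  let N : Subgroup K := Subgroup.normalClosure {⁅g', a'⁆}
  have hgN : g' ∈ N := by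
    have h1 : D ⁅g, a⁆ K ≤ N.map K.subtype := by
      unfold D
      rw [Subgroup.closure_le]
      rintro y ⟨f, hf, rfl⟩
      refine ⟨⟨f, hf⟩ * ⁅g', a'⁆ * (⟨f, hf⟩ : K)⁻¹, ?_, rfl⟩
      exact Subgroup.normalClosure_normal.conj_mem _
        (Subgroup.subset_normalClosure (Set.mem_singleton _)) _
    obtain ⟨z, hz, hz'⟩ := h1 hgD
    have : z = g' := Subtype.ext hz'
    rwa [this] at hz
  have hN : N ≤ ⁅N, Subgroup.normalClosure {a'}⁆ := by
    refine Subgroup.normalClosure_le_normal ?_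
    rw [Set.singleton_subset_iff]
    exact Subgroup.commutator_mem_commutator hgN
      (Subgroup.subset_normalClosure (Set.mem_singleton _))
  have hmain := mainGamma (Γ := K) (A := A.subgroupOf K) (Y := Y.subgroupOf K)
    (fun z n hn hz => Subtype.ext (h.pw hn (congrArg Subtype.val hz)))
    (fun u hu v hv => Subtype.ext (hA u hu v hv)) hYK
    (fun y hy u hu => hYA y hy u hu) (a := a') haA N hN
  rw [Subgroup.commutator_eq_bot_iff_le_centralizer] at hmain
  have hc' := hmain (Subgroup.subset_normalClosure (Set.mem_singleton ⁅g', a'⁆))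
  rw [Subgroup.mem_centralizer_iff] at hc'
  -- the open subgroup which commutes with `[g, a]`
  let X : Subgroup G := ((Y.subgroupOf K).normalCore).map K.subtype
  have hXK : X.relIndex K ≠ 0 := by
    have e : X.subgroupOf K = (Y.subgroupOf K).normalCore := by
      ext z
      rw [Subgroup.mem_subgroupOf]
      constructor
      · rintro ⟨w, hw, hw'⟩
        have : w = z := Subtype.ext hw'
        rwa [this] at hw
      · intro hz
        exact ⟨z, hz, rfl⟩
    unfold Subgroup.relIndex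
    rw [e]
    exact Subgroup.FiniteIndex.index_ne_zero
  have hX : X.relIndex (stabilizer G x) ≠ 0 := Subgroup.relIndex_ne_zero_trans hXK hKo
  have hcX : ⁅g, a⁆ ∈ Cz X := by
    rw [mem_Cz]
    rintro y ⟨w, hw, rfl⟩
    have := congrArg Subtype.val (hc' w hw)
    exact this
  rw [h.open_cz x hX] at hcX
  exact hg (Subgroup.mem_bot.1 hcX)

end H64.BA
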