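import Pool.Agent.H64.BA.Nil
import Pool.Agent.H47.BT.Comm

/-!
The main lemma: abelian subgroups of a torsion-free group which are normalized by a subgroup of
finite index.
-/

set_option autoImplicit false

open scoped commutatorElement

namespace H64.BA

open H47.BT

theorem comm_closure {Γ : Type*} [Group Γ] {W X : Subgroup Γ} [X.Normal] {T : Set Γ}
    (h : ∀ w ∈ W, ∀ u ∈ T, ⁅w, u⁆ ∈ X) : ⁅W, Subgroup.closure T⁆ ≤ X := by
  rw [Subgroup.commutator_le]
  intro w hw p hp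
  induction hp using Subgroup.closure_induction with
  | mem u hu => exact h w hw u hu
  | one =>
    rw [commutatorElement_one_right]
    exact one_mem _
  | mul p q _ _ hp hq =>
    rw [commutatorElement_mul_right_eq_mul_conj, mul_assoc, mul_assoc, ← mul_assoc p]
    exact mul_mem hp (Subgroup.Normal.conj_mem inferInstance _ hq p)
  | inv p _ hp =>
    rw [commutatorElement_inv_right, ← commutatorElement_inv]
    have h1 := Subgroup.Normal.conj_mem (H := X) inferInstance _ (inv_mem hp) p⁻¹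
    rwa [inv_inv] at h1

section
variable {Γ : Type*} [Group Γ] (A Y : Subgroup Γ)

/-- The elements of `K₁` which are conjugate to elements of `A`. -/
def S : Set Γ := {y | y ∈ Y.normalCore ∧ ∃ x : Γ, x⁻¹ * y * x ∈ A}

/-- The group generated by them. -/
def E : Subgroup Γ := Subgroup.normalClosure (S A Y)

instance : (E A Y).Normal := Subgroup.normalClosure_normal

theorem E_le : E A Y ≤ Y.normalCore := by
  refine Subgroup.normalClosure_le_normal ?_
  intro y hy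
  exact hy.1

theorem mem_E {x y : Γ} (hy : y ∈ Y.normalCore) (hx : x⁻¹ * y * x ∈ A) : y ∈ E A Y :=
  Subgroup.subset_normalClosure ⟨hy, x, hx⟩

variable {A Y}

theorem cj_out (hYA : ∀ y ∈ Y, ∀ a ∈ A, y * a * y⁻¹ ∈ A) (x : Γ) :
    cj ((x : Γ ⧸ Y).out) A = cj x A := by
  obtain ⟨y, hy⟩ := QuotientGroup.mk_out_eq_mul Y x
  rw [hy, cj_mul]
  have h : Nrm Y A := fun y hy a ha => hYA y hy a ha
  rw [h.cj_eq y.2]

theorem E_nil (hA : ∀ a ∈ A, ∀ b ∈ A, a * b = b * a) (hY : Y.FiniteIndex)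
    (hYA : ∀ y ∈ Y, ∀ a ∈ A, y * a * y⁻¹ ∈ A) : Group.IsNilpotent (E A Y) := by
  have hYc : Y.normalCore ≤ Y := Subgroup.normalCore_le Y
  let fam : Γ ⧸ Y → Subgroup Y.normalCore := fun q => (cj q.out A).subgroupOf Y.normalCore
  have hfn : ∀ q, (fam q).Normal := by
    intro q
    refine ⟨fun n hn g => ?_⟩
    rw [Subgroup.mem_subgroupOf, mem_cj] at hn ⊢
    have h1 : (q.out)⁻¹ * (g : Γ) * q.out ∈ Y := by
      have h2 := Y.normalCore_normal.conj_mem _ g.2 (q.out)⁻¹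
      rw [inv_inv] at h2
      exact hYc h2
    have h3 := hYA _ h1 _ hn
    have e : (q.out)⁻¹ * (g : Γ) * q.out * ((q.out)⁻¹ * (n : Γ) * q.out) *
        ((q.out)⁻¹ * (g : Γ) * q.out)⁻¹ = (q.out)⁻¹ * ((g * n * g⁻¹ : Y.normalCore) : Γ) * q.out := by
      push_cast
      group
    rwa [e] at h3
  have hfa : ∀ q, ⁅fam q, fam q⁆ = ⊥ := by
    intro q
    rw [Subgroup.commutator_eq_bot_iff_le_centralizer]
    intro u hu
    rw [Subgroup.mem_centralizer_iff]
    intro v hv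
    have hu' : (q.out)⁻¹ * (u : Γ) * q.out ∈ A := mem_cj.1 (Subgroup.mem_subgroupOf.1 hu)
    have hv' : (q.out)⁻¹ * (v : Γ) * q.out ∈ A := mem_cj.1 (Subgroup.mem_subgroupOf.1 hv)
    have h1 := hA _ hv' _ hu'
    apply Subtype.ext
    have h2 : (q.out) * ((q.out)⁻¹ * (v : Γ) * q.out * ((q.out)⁻¹ * (u : Γ) * q.out)) * (q.out)⁻¹ =
        (q.out) * ((q.out)⁻¹ * (u : Γ) * q.out * ((q.out)⁻¹ * (v : Γ) * q.out)) * (q.out)⁻¹ := by
      rw [h1]
    have e1 : (q.out) * ((q.out)⁻¹ * (v : Γ) * q.out * ((q.out)⁻¹ * (u : Γ) * q.out)) * (q.out)⁻¹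
        = (v : Γ) * u := by group
    have e2 : (q.out) * ((q.out)⁻¹ * (u : Γ) * q.out * ((q.out)⁻¹ * (v : Γ) * q.out)) * (q.out)⁻¹
        = (u : Γ) * v := by group
    rw [e1, e2] at h2
    exact h2
  have hfin : Finite (Γ ⧸ Y) := Subgroup.finite_quotient_of_finiteIndex
  have := Fintype.ofFinite (Γ ⧸ Y)
  obtain ⟨_, n, hn⟩ := fitting_sup fam hfn hfa Finset.univ
  have hle : E A Y ≤ (Finset.univ.sup fam).map Y.normalCore.subtype := by
    unfold E Subgroup.normalClosure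
    rw [Subgroup.closure_le]
    intro z hz
    rw [Group.mem_conjugatesOfSet_iff] at hz
    obtain ⟨y, ⟨hy1, x, hx⟩, hc⟩ := hz
    rw [isConj_iff] at hc
    obtain ⟨g, rfl⟩ := hc
    have hz1 : g * y * g⁻¹ ∈ Y.normalCore := Y.normalCore_normal.conj_mem _ hy1 g
    refine ⟨⟨g * y * g⁻¹, hz1⟩, ?_, rfl⟩
    have h1 : fam ((g * x : Γ) : Γ ⧸ Y) ≤ Finset.univ.sup fam :=
      Finset.le_sup (f := fam) (Finset.mem_univ _)
    apply h1
    change (⟨g * y * g⁻¹, hz1⟩ : Y.normalCore) ∈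
      (cj (((g * x : Γ) : Γ ⧸ Y).out) A).subgroupOf Y.normalCore
    rw [Subgroup.mem_subgroupOf, cj_out hYA, mem_cj]
    have e : (g * x)⁻¹ * (g * y * g⁻¹) * (g * x) = x⁻¹ * y * x := by group
    change (g * x)⁻¹ * (g * y * g⁻¹) * (g * x) ∈ A
    rw [e]
    exact hx
  refine Subgroup.isNilpotent_of_lowerCentralSeries_eq_bot (n := n) ?_
  rw [← le_bot_iff]
  refine (Subgroup.lowerCentralSeries_mono n hle).trans ?_
  change ((Finset.univ.sup fam).map Y.normalCore.subtype).lowerCentralSeries n ≤ ⊥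
  rw [← Subgroup.map_lowerCentralSeries, hn, Subgroup.map_bot]

/-- **The main lemma.** -/
theorem mainGamma (tf : ∀ (g : Γ) (n : ℕ), n ≠ 0 → g ^ n = 1 → g = 1)
    (hA : ∀ a ∈ A, ∀ b ∈ A, a * b = b * a) (hY : Y.FiniteIndex)
    (hYA : ∀ y ∈ Y, ∀ a ∈ A, y * a * y⁻¹ ∈ A) {a : Γ} (ha : a ∈ A) (N : Subgroup Γ)
    (hN : N ≤ ⁅N, Subgroup.normalClosure {a}⁆) : ⁅N, Y.normalCore⁆ = ⊥ := by
  have hYc : Y.normalCore ≤ Y := Subgroup.normalCore_le Y
  have hnil := E_nil hA hY hYA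
  obtain ⟨s, hs⟩ := hnil.nilpotent
  have hEn : (E A Y).Normal := inferInstance
  -- the chain
  let W : ℕ → Subgroup Γ := fun j => if j ≤ s then
    (Subgroup.upperCentralSeries (E A Y) j).map (E A Y).subtype else Y.normalCore
  have hW1 : ∀ j, j ≤ s → W j = (Subgroup.upperCentralSeries (E A Y) j).map (E A Y).subtype :=
    fun j hj => if_pos hj
  have hW2 : W (s + 1) = Y.normalCore := if_neg (by omega)
  have hWn : ∀ j, (W j).Normal := by
    intro j
    by_cases hj : j ≤ s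
    · rw [hW1 j hj]
      exact ConjAct.normal_of_characteristic_of_normal
    · have : W j = Y.normalCore := if_neg hj
      rw [this]
      exact Y.normalCore_normal
  have hW0 : W 0 = ⊥ := by
    rw [hW1 0 (Nat.zero_le _), Subgroup.upperCentralSeries_zero, Subgroup.map_bot]
  -- the commutators with the conjugates of `a`
  have key : ∀ k ∈ Y.normalCore, ∀ g : Γ, ⁅k, g * a * g⁻¹⁆ ∈ E A Y ∧
      Commute ⁅k, g * a * g⁻¹⁆ (g * a * g⁻¹) := by
    intro k hk g
    have h1 : g⁻¹ * k * g ∈ Y := by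
      have h2 := Y.normalCore_normal.conj_mem _ hk g⁻¹
      rw [inv_inv] at h2
      exact hYc h2
    have h3 : g⁻¹ * ⁅k, g * a * g⁻¹⁆ * g ∈ A := by
      have h4 := mul_mem (hYA _ h1 _ ha) (inv_mem ha)
      have e : g⁻¹ * k * g * a * (g⁻¹ * k * g)⁻¹ * a⁻¹ = g⁻¹ * ⁅k, g * a * g⁻¹⁆ * g := by
        rw [commutatorElement_def]
        group
      rwa [e] at h4
    refine ⟨mem_E A Y ?_ h3, ?_⟩
    · have h5 : ⁅k, g * a * g⁻¹⁆ = k * ((g * a * g⁻¹) * k⁻¹ * (g * a * g⁻¹)⁻¹) := by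
        rw [commutatorElement_def]
        group
      rw [h5]
      exact mul_mem hk (Y.normalCore_normal.conj_mem _ (inv_mem hk) _)
    · have h6 := hA _ h3 _ ha
      have h7 : g * (g⁻¹ * ⁅k, g * a * g⁻¹⁆ * g * a) * g⁻¹ =
          g * (a * (g⁻¹ * ⁅k, g * a * g⁻¹⁆ * g)) * g⁻¹ := by rw [h6]
      have e1 : g * (g⁻¹ * ⁅k, g * a * g⁻¹⁆ * g * a) * g⁻¹ =
          ⁅k, g * a * g⁻¹⁆ * (g * a * g⁻¹) := by group
      have e2 : g * (a * (g⁻¹ * ⁅k, g * a * g⁻¹⁆ * g)) * g⁻¹ =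
          (g * a * g⁻¹) * ⁅k, g * a * g⁻¹⁆ := by group
      rw [e1, e2] at h7
      exact h7
  have hstep : ∀ j < s + 1, ⁅W (j + 1), Subgroup.normalClosure {a}⁆ ≤ W j := by
    intro j hj
    have := hWn j
    unfold Subgroup.normalClosure
    refine comm_closure ?_
    intro w hw u hu
    rw [Group.mem_conjugatesOfSet_iff] at hu
    obtain ⟨a', ha', hc⟩ := hu
    rw [Set.mem_singleton_iff] at ha'
    subst ha'
    rw [isConj_iff] at hc
    obtain ⟨g, rfl⟩ := hc
    rcases Nat.lt_or_ge j s with hjs | hjs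
    · rw [hW1 (j + 1) hjs] at hw
      have hwn := hw
      obtain ⟨e, he, rfl⟩ := hw
      obtain ⟨h1, h2⟩ := key _ (E_le A Y e.2) g
      obtain ⟨n, hn0, _, hn⟩ := Subgroup.exists_pow_mem_of_index_ne_zero
        (H := Y.normalCore) Subgroup.FiniteIndex.index_ne_zero (g * a' * g⁻¹)
      have hun : (g * a' * g⁻¹) ^ n ∈ E A Y := by
        refine mem_E A Y (x := g) hn ?_
        rw [conj_pow]
        have e3 : g⁻¹ * (g * a' ^ n * g⁻¹) * g = a' ^ n := by group
        rw [e3]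
        exact pow_mem ha n
      have h3 : ⁅(e : Γ), (g * a' * g⁻¹) ^ n⁆ = ⁅(e : Γ), g * a' * g⁻¹⁆ ^ n := by
        have h4 : Commute ⁅g * a' * g⁻¹, (e : Γ)⁆ (g * a' * g⁻¹) := by
          rw [← commutatorElement_inv]
          exact h2.inv_left
        have h5 := pow_comm h4 n
        rw [← commutatorElement_inv, h5, ← inv_pow, commutatorElement_inv]
      have h6 : (⟨⁅(e : Γ), g * a' * g⁻¹⁆, h1⟩ : E A Y) ∈
          Subgroup.upperCentralSeries (E A Y) (j + 1) := by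
        have h7 : ⁅(e : Γ), g * a' * g⁻¹⁆ ∈
            (Subgroup.upperCentralSeries (E A Y) (j + 1)).map (E A Y).subtype := by
          have h8 : ((Subgroup.upperCentralSeries (E A Y) (j + 1)).map (E A Y).subtype).Normal :=
            ConjAct.normal_of_characteristic_of_normal
          have h9 : ⁅(e : Γ), g * a' * g⁻¹⁆ =
              (e : Γ) * ((g * a' * g⁻¹) * (e : Γ)⁻¹ * (g * a' * g⁻¹)⁻¹) := by
            rw [commutatorElement_def]
            group
          rw [h9]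
          exact mul_mem hwn (h8.conj_mem _ (inv_mem hwn) _)
        obtain ⟨z, hz, hz'⟩ := h7
        have : z = ⟨⁅(e : Γ), g * a' * g⁻¹⁆, h1⟩ := Subtype.ext hz'
        rwa [this] at hz
      have h10 : (⟨⁅(e : Γ), g * a' * g⁻¹⁆, h1⟩ : E A Y) ^ n ∈
          Subgroup.upperCentralSeries (E A Y) j := by
        have h11 := Subgroup.mem_upperCentralSeries_succ_iff.1 he ⟨(g * a' * g⁻¹) ^ n, hun⟩
        have h12 : ⁅e, (⟨(g * a' * g⁻¹) ^ n, hun⟩ : E A Y)⁆ =
            (⟨⁅(e : Γ), g * a' * g⁻¹⁆, h1⟩ : E A Y) ^ n := Subtype.ext h3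
        rwa [h12] at h11
      have tfE : ∀ (z : E A Y) (n : ℕ), n ≠ 0 → z ^ n = 1 → z = 1 := by
        intro z n hn hz
        apply Subtype.ext
        exact tf z n hn (congrArg Subtype.val hz)
      have h13 := tf_ucs tfE j _ n hn0.ne' h6 h10
      rw [hW1 j hjs.le]
      exact ⟨_, h13, rfl⟩
    · have hjs' : j = s := by omega
      subst hjs'
      rw [hW2] at hw
      rw [hW1 j le_rfl, hs]
      exact ⟨⟨_, (key w hw g).1⟩, Subgroup.mem_top _, rfl⟩
  have := chain W hWn hW0 (Subgroup.normalClosure {a}) N (s + 1) hstep hN (s + 1) (s + 1) le_rfl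
  rw [hW2, Nat.sub_self, hW0] at this
  exact le_bot_iff.1 this

end

end H64.BA
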