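import Mathlib

/-!
Nilpotent groups: the three subgroups lemma modulo a normal subgroup, torsion-free upper central
factors, Fitting's theorem for finitely many abelian normal subgroups.
-/

set_option autoImplicit false

namespace H64.BA

open scoped commutatorElement

/-- The three subgroups lemma modulo a normal subgroup. -/
theorem three_mod {Γ : Type*} [Group Γ] (T : Subgroup Γ) [T.Normal] {A B C : Subgroup Γ}
    (h1 : ⁅⁅B, C⁆, A⁆ ≤ T) (h2 : ⁅⁅C, A⁆, B⁆ ≤ T) : ⁅⁅A, B⁆, C⁆ ≤ T := by
  have key : ∀ X Y Z : Subgroup Γ, ⁅⁅X, Y⁆, Z⁆ ≤ T ↔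
      ⁅⁅X.map (QuotientGroup.mk' T), Y.map (QuotientGroup.mk' T)⁆,
        Z.map (QuotientGroup.mk' T)⁆ = ⊥ := by
    intro X Y Z
    rw [← Subgroup.map_commutator, ← Subgroup.map_commutator, Subgroup.map_eq_bot_iff,
      QuotientGroup.ker_mk']
  rw [key] at h1 h2 ⊢
  exact Subgroup.commutator_commutator_eq_bot_of_rotate h1 h2

/-- A normal subgroup `N ≤ [N, P]` centralizes a finite chain on which `P` acts nilpotently. -/
theorem chain {Γ : Type*} [Group Γ] (W : ℕ → Subgroup Γ) (hWn : ∀ j, (W j).Normal)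
    (hW0 : W 0 = ⊥) (P N : Subgroup Γ) (k : ℕ) (hW : ∀ j < k, ⁅W (j + 1), P⁆ ≤ W j)
    (hN : N ≤ ⁅N, P⁆) : ∀ i j, j ≤ k → ⁅N, W j⁆ ≤ W (j - i) := by
  intro i
  induction i with
  | zero =>
    intro j _
    have := hWn j
    exact Subgroup.commutator_le_right _ _
  | succ i ih =>
    intro j hj
    rcases j with _ | j
    · rw [hW0, Subgroup.commutator_bot_right]
      exact bot_le
    · have e0 : j + 1 - (i + 1) = j - i := by omega
      rw [e0]
      have := hWn (j - i)
      refine (Subgroup.commutator_mono hN le_rfl).trans (three_mod (W (j - i)) ?_ ?_)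
      · have h1 : ⁅P, W (j + 1)⁆ ≤ W j := by
          rw [Subgroup.commutator_comm]
          exact hW j (by omega)
        refine (Subgroup.commutator_mono h1 le_rfl).trans ?_
        rw [Subgroup.commutator_comm]
        exact ih j (by omega)
      · have h1 : ⁅W (j + 1), N⁆ ≤ W (j + 1 - i) := by
          rw [Subgroup.commutator_comm]
          exact ih (j + 1) hj
        refine (Subgroup.commutator_mono h1 le_rfl).trans ?_
        rcases Nat.lt_or_ge j i with h2 | h2
        · have e1 : j + 1 - i = 0 := by omega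
          rw [e1, hW0, Subgroup.commutator_bot_left]
          exact bot_le
        · have e1 : j + 1 - i = j - i + 1 := by omega
          rw [e1]
          exact hW (j - i) (by omega)

theorem pow_comm {E : Type*} [Group E] {e f : E} (h : Commute ⁅e, f⁆ e) (n : ℕ) :
    ⁅e ^ n, f⁆ = ⁅e, f⁆ ^ n := by
  induction n with
  | zero => simp
  | succ n ih =>
    have h1 : e ^ n * f * (e ^ n)⁻¹ = ⁅e, f⁆ ^ n * f := by
      rw [← ih, commutatorElement_def]
      group
    have h2 : Commute (⁅e, f⁆ ^ n) e := h.pow_left n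
    calc ⁅e ^ (n + 1), f⁆ = e * (e ^ n * f * (e ^ n)⁻¹) * e⁻¹ * f⁻¹ := by
          rw [commutatorElement_def, pow_succ']
          group
      _ = e * (⁅e, f⁆ ^ n * f) * e⁻¹ * f⁻¹ := by rw [h1]
      _ = ⁅e, f⁆ ^ n * (e * f * e⁻¹ * f⁻¹) := by
          rw [← mul_assoc e, ← h2.eq]
          group
      _ = ⁅e, f⁆ ^ (n + 1) := by
          rw [← commutatorElement_def, pow_succ]

/-- The factors of the upper central series of a torsion-free group are torsion-free. -/
theorem tf_ucs {E : Type*} [Group E] (tf : ∀ (g : E) (n : ℕ), n ≠ 0 → g ^ n = 1 → g = 1)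
    (i : ℕ) : ∀ (e : E) (n : ℕ), n ≠ 0 → e ∈ Subgroup.upperCentralSeries E (i + 1) →
      e ^ n ∈ Subgroup.upperCentralSeries E i → e ∈ Subgroup.upperCentralSeries E i := by
  induction i with
  | zero =>
    intro e n hn _ h
    rw [Subgroup.upperCentralSeries_zero, Subgroup.mem_bot] at h ⊢
    exact tf e n hn h
  | succ i ih =>
    intro e n hn h1 h2
    rw [Subgroup.mem_upperCentralSeries_succ_iff] at h2 ⊢
    intro f
    have hc : ⁅e, f⁆ ∈ Subgroup.upperCentralSeries E (i + 1) := Subgroup.mem_upperCentralSeries_succ_iff.1 h1 f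
    refine ih ⁅e, f⁆ n hn hc ?_
    have h3 := h2 f
    rw [← QuotientGroup.eq_one_iff] at h3 ⊢
    have h4 : Commute ⁅(e : E ⧸ Subgroup.upperCentralSeries E i), (f : E ⧸ Subgroup.upperCentralSeries E i)⁆
        (e : E ⧸ Subgroup.upperCentralSeries E i) := by
      rw [← commutatorElement_eq_one_iff_commute]
      have h5 := Subgroup.mem_upperCentralSeries_succ_iff.1 hc e
      rw [← QuotientGroup.eq_one_iff] at h5
      exact h5
    have h6 := pow_comm h4 n
    have h7 : ((⁅e, f⁆ ^ n : E) : E ⧸ Subgroup.upperCentralSeries E i) =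
        ⁅(e : E ⧸ Subgroup.upperCentralSeries E i), (f : E ⧸ Subgroup.upperCentralSeries E i)⁆ ^ n := rfl
    have h8 : ((⁅e ^ n, f⁆ : E) : E ⧸ Subgroup.upperCentralSeries E i) =
        ⁅(e : E ⧸ Subgroup.upperCentralSeries E i) ^ n, (f : E ⧸ Subgroup.upperCentralSeries E i)⁆ := rfl
    rw [h7, ← h6, ← h8]
    exact h3

/-! ### Fitting's theorem -/

theorem comm_sup_le {Q : Type*} [Group Q] {A B T X : Subgroup Q} [B.Normal] [X.Normal]
    (h1 : ⁅A, T⁆ ≤ X) (h2 : ⁅B, T⁆ ≤ X) : ⁅A ⊔ B, T⁆ ≤ X := by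
  rw [Subgroup.commutator_le]
  intro g hg t ht
  rw [Subgroup.mem_sup_of_normal_right] at hg
  obtain ⟨a, ha, b, hb, rfl⟩ := hg
  rw [commutatorElement_mul_left_eq_conj_mul]
  exact mul_mem (Subgroup.Normal.conj_mem inferInstance _
    (h2 (Subgroup.commutator_mem_commutator hb ht)) a)
    (h1 (Subgroup.commutator_mem_commutator ha ht))

theorem comm_sup_le' {Q : Type*} [Group Q] {A B T X : Subgroup Q} [B.Normal] [X.Normal]
    (h1 : ⁅T, A⁆ ≤ X) (h2 : ⁅T, B⁆ ≤ X) : ⁅T, A ⊔ B⁆ ≤ X := by
  rw [Subgroup.commutator_comm] at h1 h2 ⊢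
  exact comm_sup_le h1 h2

/-- The product of a nilpotent and an abelian normal subgroup is nilpotent. -/
theorem fitting {Q : Type*} [Group Q] (S B : Subgroup Q) [S.Normal] [B.Normal]
    (hS : ∃ n, S.lowerCentralSeries n = ⊥) (hB : ⁅B, B⁆ = ⊥) :
    ∃ n, (S ⊔ B).lowerCentralSeries n = ⊥ := by
  obtain ⟨s, hs⟩ := hS
  have h1 : ∀ j, (S ⊔ B).lowerCentralSeries j ≤ S.lowerCentralSeries j ⊔ B := by
    intro j
    induction j with
    | zero => exact le_rfl
    | succ j ih =>
      rw [Subgroup.lowerCentralSeries_succ]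
      refine (Subgroup.commutator_mono ih le_rfl).trans ?_
      refine comm_sup_le (comm_sup_le' ?_ ?_) ?_
      · exact le_sup_left
      · exact (Subgroup.commutator_le_right _ _).trans le_sup_right
      · exact (Subgroup.commutator_le_left _ _).trans le_sup_right
  have h2 : ∀ j, (S ⊔ B).lowerCentralSeries (s + 1 + j) ≤ B ⊓ S.lowerCentralSeries j := by
    intro j
    induction j with
    | zero =>
      rw [add_zero, Subgroup.lowerCentralSeries_succ]
      have h3 := h1 s
      rw [hs, bot_sup_eq] at h3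
      refine (Subgroup.commutator_mono h3 le_rfl).trans ?_
      refine comm_sup_le' ?_ ?_
      · exact Subgroup.commutator_le_inf _ _
      · rw [hB]
        exact bot_le
    | succ j ih =>
      rw [← add_assoc, Subgroup.lowerCentralSeries_succ]
      refine (Subgroup.commutator_mono ih le_rfl).trans ?_
      refine comm_sup_le' ?_ ?_
      · refine le_inf ?_ ?_
        · exact (Subgroup.commutator_mono inf_le_left le_rfl).trans
            (Subgroup.commutator_le_left _ _)
        · exact Subgroup.commutator_mono inf_le_right le_rfl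
      · refine (Subgroup.commutator_mono inf_le_left le_rfl).trans ?_
        rw [hB]
        exact bot_le
  refine ⟨s + 1 + s, ?_⟩
  have h3 := h2 s
  rw [hs, inf_bot_eq] at h3
  exact le_bot_iff.1 h3

/-- Fitting's theorem for a finite family of abelian normal subgroups. -/
theorem fitting_sup {Q ι : Type*} [Group Q] (E : ι → Subgroup Q) (hn : ∀ i, (E i).Normal)
    (hE : ∀ i, ⁅E i, E i⁆ = ⊥) (s : Finset ι) :
    (s.sup E).Normal ∧ ∃ n, (s.sup E).lowerCentralSeries n = ⊥ := by
  classical
  induction s using Finset.induction_on with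
  | empty =>
    rw [Finset.sup_empty]
    exact ⟨inferInstance, 0, rfl⟩
  | insert i s _ ih =>
    rw [Finset.sup_insert, sup_comm]
    have h1 := hn i
    have h2 := ih.1
    exact ⟨inferInstance, fitting _ _ ih.2 (hE i)⟩

end H64.BA
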