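import Pool.Agent.H64.BA.Abel

/-!
Torsion-free barely transitive groups: no nontrivial soluble subgroup is normalized by a subgroup
of finite index of a point stabilizer.
-/

set_option autoImplicit false

open scoped commutatorElement

namespace H64.BA

open H47.BT MulAction

theorem nrm_comm {G : Type*} [Group G] {Y A : Subgroup G} (h : Nrm Y A) : Nrm Y ⁅A, A⁆ := by
  intro y hy m hm
  rw [Subgroup.commutator_def] at hm
  induction hm using Subgroup.closure_induction with
  | mem z hz =>
    obtain ⟨a, ha, b, hb, rfl⟩ := hz
    rw [conjugate_commutatorElement]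
    exact Subgroup.commutator_mem_commutator (h y hy a ha) (h y hy b hb)
  | one =>
    have : y * 1 * y⁻¹ = 1 := by group
    rw [this]
    exact one_mem _
  | mul a b _ _ ha hb =>
    have : y * (a * b) * y⁻¹ = (y * a * y⁻¹) * (y * b * y⁻¹) := by group
    rw [this]
    exact mul_mem ha hb
  | inv a _ ha =>
    have : y * a⁻¹ * y⁻¹ = (y * a * y⁻¹)⁻¹ := by group
    rw [this]
    exact inv_mem ha

variable {G Ω : Type*} [Group G] [MulAction G Ω]

/-- No nontrivial abelian subgroup is locally normal. -/
theorem not_abelian (h : Bare G Ω) (x : Ω) {A : Subgroup G} (hAb : A ≠ ⊥)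
    (hA : ∀ a ∈ A, ∀ b ∈ A, a * b = b * a) {Y : Subgroup G}
    (hY : Y.relIndex (stabilizer G x) ≠ 0) (hYA : Nrm Y A) : False := by
  by_cases hfg : Group.FG G
  · refine (h.sys hfg x).main (M := A) (N := A) ⟨Y, hY, hYA⟩ hAb hAb ?_
    intro m hm n hn
    exact hA m hm n hn
  · exact abel h hfg x hAb hA hY hYA

/-- No nontrivial soluble subgroup is locally normal. -/
theorem not_solvable (h : Bare G Ω) (x : Ω) {M : Subgroup G} (hM : M ≠ ⊥) {Y : Subgroup G}
    (hY : Y.relIndex (stabilizer G x) ≠ 0) (hYM : Nrm Y M) : ¬ Group.IsSolvable M := by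
  intro hs
  have hn : ∀ n, Nrm Y ((derivedSeries M n).map M.subtype) := by
    intro n
    induction n with
    | zero =>
      have : (derivedSeries M 0).map M.subtype = M := by
        rw [derivedSeries_zero, ← MonoidHom.range_eq_map, Subgroup.range_subtype]
      rw [this]
      exact hYM
    | succ n ih =>
      rw [derivedSeries_succ, Subgroup.map_commutator]
      exact nrm_comm ih
  obtain ⟨n, hn0⟩ := hs.solvable
  have key : ∀ n, derivedSeries M n = ⊥ → False := by
    intro n
    induction n with
    | zero =>
      intro hc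
      apply hM
      rw [derivedSeries_zero] at hc
      rw [Subgroup.eq_bot_iff_forall]
      intro m hm
      have : (⟨m, hm⟩ : M) ∈ (⊤ : Subgroup M) := Subgroup.mem_top _
      rw [hc, Subgroup.mem_bot] at this
      exact congrArg Subtype.val this
    | succ n ih =>
      intro hc
      by_cases hb : derivedSeries M n = ⊥
      · exact ih hb
      refine not_abelian h x (A := (derivedSeries M n).map M.subtype) ?_ ?_ hY (hn n)
      · intro h0
        rw [Subgroup.map_eq_bot_iff, Subgroup.ker_subtype] at h0
        exact hb (le_bot_iff.1 h0)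
      · rintro a ⟨a, ha, rfl⟩ b ⟨b, hb', rfl⟩
        rw [derivedSeries_succ, Subgroup.commutator_eq_bot_iff_le_centralizer] at hc
        have h1 := Subgroup.mem_centralizer_iff.1 (hc hb') a ha
        exact congrArg Subtype.val h1
  exact key n hn0

end H64.BA
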